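import Pool.Agent.Helper69.QG.St3

/-!
# Project QD, part C, geometric half: module RPT (coset identities in the Coxeter group)
-/

set_option autoImplicit false

open Complex Set Metric
open scoped ComplexConjugate

namespace Pool.Agent.Helper6.QG

open Pool.Agent.Helper69.QG Pool.Agent.Helper35.PM

private theorem g_self (s : Fin 4) : gen s * gen s = 1 := cs.simple_mul_simple_self s

private theorem g_comm {s t : Fin 4} (h : cm s t = 2) : gen s * gen t = gen t * gen s := by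
  have h1 : (gen s * gen t) ^ 2 = 1 := by
    have h2 := cs.simple_mul_simple_pow s t
    rw [h] at h2
    exact h2
  have h3 : (gen s * gen t) * (gen s * gen t) = 1 := by rw [← pow_two]; exact h1
  calc gen s * gen t = (gen s * gen t)⁻¹ := eq_inv_of_mul_eq_one_left h3
    _ = (gen t)⁻¹ * (gen s)⁻¹ := mul_inv_rev _ _
    _ = gen t * gen s := by
      rw [inv_eq_of_mul_eq_one_left (g_self t), inv_eq_of_mul_eq_one_left (g_self s)]

private theorem g02 : gen 0 * gen 2 = gen 2 * gen 0 := g_comm rfl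

private theorem g03 : gen 0 * gen 3 = gen 3 * gen 0 := g_comm rfl

private theorem g12 : gen 1 * gen 2 = gen 2 * gen 1 := g_comm rfl

private theorem g13 : (gen 1 * gen 3) ^ 4 = 1 := cs.simple_mul_simple_pow 1 3

private theorem wA_a : wA * gen 0 = gen 1 := by
  unfold wA
  rw [mul_assoc, g_self, mul_one]

private theorem wA_inv : wA⁻¹ = gen 0 * gen 1 := by
  unfold wA
  rw [mul_inv_rev, inv_eq_of_mul_eq_one_left (g_self 0), inv_eq_of_mul_eq_one_left (g_self 1)]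

private theorem wB_c : wB * gen 2 = gen 3 := by
  unfold wB
  rw [mul_assoc, g_self, mul_one]

private theorem wB_inv : wB⁻¹ = gen 2 * gen 3 := by
  unfold wB
  rw [mul_inv_rev, inv_eq_of_mul_eq_one_left (g_self 2), inv_eq_of_mul_eq_one_left (g_self 3)]

private theorem a_wB : gen 0 * wB = wB * gen 0 := by
  unfold wB
  rw [← mul_assoc, g03, mul_assoc, g02, mul_assoc]

private theorem comm_eq : wA * wB * wA⁻¹ * wB⁻¹ = (gen 1 * gen 3) ^ 2 := by
  rw [wA_inv, wB_inv]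
  have h1 : wA * wB = gen 1 * wB * gen 0 := by
    unfold wA
    rw [mul_assoc, a_wB, mul_assoc]
  rw [h1]
  calc gen 1 * wB * gen 0 * (gen 0 * gen 1) * (gen 2 * gen 3)
      = gen 1 * wB * (gen 0 * gen 0) * gen 1 * gen 2 * gen 3 := by simp only [mul_assoc]
    _ = gen 1 * wB * (gen 1 * gen 2) * gen 3 := by rw [g_self, mul_one, mul_assoc (gen 1 * wB)]
    _ = gen 1 * wB * (gen 2 * gen 1) * gen 3 := by rw [g12]
    _ = gen 1 * (wB * gen 2) * gen 1 * gen 3 := by simp only [mul_assoc]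
    _ = (gen 1 * gen 3) ^ 2 := by rw [wB_c, pow_two, mul_assoc (gen 1 * gen 3)]

private theorem comm_sq : (wA * wB * wA⁻¹ * wB⁻¹) ^ 2 = 1 := by
  rw [comm_eq, ← pow_mul]
  exact g13

private theorem comm_inv : wA * wB * wA⁻¹ * wB⁻¹ = wB * wA * wB⁻¹ * wA⁻¹ := by
  have h := comm_sq
  rw [pow_two] at h
  have h2 := eq_inv_of_mul_eq_one_left h
  have h3 : (wA * wB * wA⁻¹ * wB⁻¹)⁻¹ = wB * wA * wB⁻¹ * wA⁻¹ := by group
  rw [h3] at h2
  exact h2

/-- the power of `a` -/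
private def PP (α : Bool) : W := if α then gen 0 else 1

/-- the power of `c` -/
private def QQ (β : Bool) : W := if β then gen 2 else 1

private theorem repc_eq (i : Fin 4) (α β : Bool) : repc (i, α, β) = wA ^ (i : ℕ) * PP α * QQ β := rfl

private theorem P_mul (α : Bool) : PP α * gen 0 = PP (!α) := by
  cases α
  · exact one_mul _
  · exact g_self 0

private theorem Q_mul (β : Bool) : QQ β * gen 2 = QQ (!β) := by
  cases β
  · exact one_mul _
  · exact g_self 2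

private theorem Q_0 (β : Bool) : QQ β * gen 0 = gen 0 * QQ β := by
  cases β
  · exact (one_mul _).trans (mul_one _).symm
  · exact g02.symm

private theorem Q_1 (β : Bool) : QQ β * gen 1 = gen 1 * QQ β := by
  cases β
  · exact (one_mul _).trans (mul_one _).symm
  · exact g12.symm

private theorem P_wB (α : Bool) : PP α * wB = wB * PP α := by
  cases α
  · exact (one_mul _).trans (mul_one _).symm
  · exact a_wB

private theorem P_wBi (α : Bool) : PP α * wB⁻¹ = wB⁻¹ * PP α := by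
  have h : Commute (PP α) wB := P_wB α
  exact h.inv_right.eq

private theorem P_2 (α : Bool) : PP α * gen 2 = gen 2 * PP α := by
  cases α
  · exact (one_mul _).trans (mul_one _).symm
  · exact g02

private theorem k1 (i : Fin 4) : wA ^ (i : ℕ) * wA =
    (if i = 3 then (wb1 wA wB)⁻¹ * wa2 wA wB else 1) * wA ^ ((i + 1 : Fin 4) : ℕ) := by
  fin_cases i
  · simp
  · change wA ^ 1 * wA = 1 * wA ^ 2
    group
  · change wA ^ 2 * wA = 1 * wA ^ 3
    group
  · change wA ^ 3 * wA = ((wb1 wA wB)⁻¹ * wa2 wA wB) * wA ^ 0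
    unfold wb1 wa2
    group

private theorem k1' (i : Fin 4) : wA ^ (i : ℕ) * wA⁻¹ =
    (if i = 0 then ((wb1 wA wB)⁻¹ * wa2 wA wB)⁻¹ else 1) * wA ^ ((i - 1 : Fin 4) : ℕ) := by
  fin_cases i
  · change wA ^ 0 * wA⁻¹ = ((wb1 wA wB)⁻¹ * wa2 wA wB)⁻¹ * wA ^ 3
    unfold wb1 wa2
    group
  · change wA ^ 1 * wA⁻¹ = 1 * wA ^ 0
    group
  · change wA ^ 2 * wA⁻¹ = 1 * wA ^ 1
    group
  · change wA ^ 3 * wA⁻¹ = 1 * wA ^ 2
    group

/-- the labels in `W` -/
private def YY : Fin 4 → W := yl (wa1 wA wB) (wb1 wA wB) (wa2 wA wB) (wb2 wA wB)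

private theorem k3 (i : Fin 4) : wA ^ (i : ℕ) * wB =
    YY i * wA ^ ((![1, 0, 3, 2] i : Fin 4) : ℕ) := by
  fin_cases i
  · change wA ^ 0 * wB = wb2 wA wB * wA ^ 1
    unfold wb2
    group
  · change wA ^ 1 * wB = (wb2 wA wB * wa2 wA wB) * wA ^ 0
    unfold wb2 wa2
    group
  · change wA ^ 2 * wB = wa1 wA wB * wA ^ 3
    unfold wa1
    group
  · change wA ^ 3 * wB = (wa1 wA wB * (wb1 wA wB)⁻¹) * wA ^ 2
    have h1 : (wa1 wA wB * (wb1 wA wB)⁻¹) * wA ^ 2 =
        wA ^ 2 * (wB * wA * wB⁻¹ * wA⁻¹) * wB * wA := by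
      unfold wa1 wb1
      group
    rw [h1, ← comm_inv]
    group

private theorem k3' (i : Fin 4) : wA ^ (i : ℕ) * wB⁻¹ =
    (YY (![1, 0, 3, 2] i))⁻¹ * wA ^ ((![1, 0, 3, 2] i : Fin 4) : ℕ) := by
  have h := k3 (![1, 0, 3, 2] i)
  have h2 : (![1, 0, 3, 2] (![1, 0, 3, 2] i : Fin 4) : Fin 4) = i := by
    fin_cases i <;> rfl
  rw [h2] at h
  rw [eq_inv_mul_iff_mul_eq, ← mul_assoc, ← h, mul_inv_cancel_right]

theorem cRPT : St_RPT := by
  refine ⟨comm_sq, fun s t => ?_⟩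
  obtain ⟨i, α, β⟩ := t
  rw [repc_eq]
  fin_cases s
  · change wA ^ (i : ℕ) * PP α * QQ β * gen 0 = 1 * repc (i, !α, β)
    rw [repc_eq, one_mul, mul_assoc, Q_0, ← mul_assoc, mul_assoc (wA ^ (i : ℕ)), P_mul]
  · cases α
    · change wA ^ (i : ℕ) * PP false * QQ β * gen 1 =
        (if i = 3 then (wb1 wA wB)⁻¹ * wa2 wA wB else 1) * repc (i + 1, true, β)
      rw [repc_eq, mul_assoc, Q_1, ← wA_a]
      change wA ^ (i : ℕ) * 1 * (wA * gen 0 * QQ β) = _ * (wA ^ ((i + 1 : Fin 4) : ℕ) * gen 0 * QQ β)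
      rw [mul_one]
      simp only [← mul_assoc]
      rw [k1 i]
    · change wA ^ (i : ℕ) * PP true * QQ β * gen 1 =
        (if i = 0 then ((wb1 wA wB)⁻¹ * wa2 wA wB)⁻¹ else 1) * repc (i - 1, false, β)
      rw [repc_eq, mul_assoc, Q_1]
      change wA ^ (i : ℕ) * gen 0 * (gen 1 * QQ β) = _ * (wA ^ ((i - 1 : Fin 4) : ℕ) * 1 * QQ β)
      rw [mul_one, ← mul_assoc, ← mul_assoc, mul_assoc (wA ^ (i : ℕ)), ← wA_inv, k1' i]
  · change wA ^ (i : ℕ) * PP α * QQ β * gen 2 = 1 * repc (i, α, !β)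
    rw [repc_eq, one_mul, mul_assoc, Q_mul]
  · cases β
    · change wA ^ (i : ℕ) * PP α * 1 * gen 3 = YY i * repc (![1, 0, 3, 2] i, α, true)
      rw [repc_eq, mul_one, ← wB_c]
      change wA ^ (i : ℕ) * PP α * (wB * gen 2) =
        YY i * (wA ^ ((![1, 0, 3, 2] i : Fin 4) : ℕ) * PP α * gen 2)
      rw [← mul_assoc, mul_assoc (wA ^ (i : ℕ)), P_wB, ← mul_assoc, k3 i]
      simp only [mul_assoc]
    · change wA ^ (i : ℕ) * PP α * gen 2 * gen 3 =
        (YY (![1, 0, 3, 2] i))⁻¹ * repc (![1, 0, 3, 2] i, α, false)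
      rw [repc_eq, mul_assoc, ← wB_inv]
      change wA ^ (i : ℕ) * PP α * wB⁻¹ =
        (YY (![1, 0, 3, 2] i))⁻¹ * (wA ^ ((![1, 0, 3, 2] i : Fin 4) : ℕ) * PP α * 1)
      rw [mul_one, mul_assoc, P_wBi, ← mul_assoc, k3' i]
      simp only [mul_assoc]

end Pool.Agent.Helper6.QG
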